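import Pool.Agent.P.MP_317f4c_nt.Pos

namespace Pool.Agent.Results.MP_317f4c_nt.PositiveSlopes

/-- A permutation of the integers, affine with positive slope on every residue class modulo
`d`, and an orbit whose share of `[1, N]` and of `[-N, -1]` is at least `11/20` for infinitely
many `N`, and whose share of `[0, N]` and of `[-N, 0]` is at most `9/20` for infinitely many `N`. -/
theorem result : ∃ (g : Equiv.Perm ℤ) (d : ℕ) (a b : ℕ → ℚ) (n₀ : ℤ), 2 ≤ d ∧ (∀ i, 0 < a i) ∧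
    (∀ n : ℤ, (g n : ℚ) = a (n % (d : ℤ)).toNat * (n : ℚ) + b (n % (d : ℤ)).toNat) ∧
    (∃ᶠ N : ℕ in Filter.atTop,
      11 * N ≤ 20 * ({k | ∃ j : ℤ, (g ^ j) n₀ = k} ∩ Set.Icc 1 (N : ℤ)).ncard ∧
      11 * N ≤ 20 * ({k | ∃ j : ℤ, (g ^ j) n₀ = k} ∩ Set.Icc (-(N : ℤ)) (-1)).ncard) ∧
    (∃ᶠ N : ℕ in Filter.atTop,
      20 * ({k | ∃ j : ℤ, (g ^ j) n₀ = k} ∩ Set.Icc 0 (N : ℤ)).ncard ≤ 9 * N ∧
      20 * ({k | ∃ j : ℤ, (g ^ j) n₀ = k} ∩ Set.Icc (-(N : ℤ)) 0).ncard ≤ 9 * N) :=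
  Pool.Agent.P.MP_317f4c_nt.main2

end Pool.Agent.Results.MP_317f4c_nt.PositiveSlopes
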